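import Pool.Agent.EX.Stm

/-!
# Groups of class at most two are semiabelian
-/

set_option autoImplicit false

namespace Pool.Agent.EX

/-- commutators of powers of one element and central elements -/
private theorem xcl_form {G : Type} [Group G] (x : G) :
    ∀ a ∈ Subgroup.zpowers x ⊔ Subgroup.center G, ∃ (n : ℤ) (c : G), c ∈ Subgroup.center G ∧
      a = x ^ n * c := by
  intro a ha
  rw [Subgroup.mem_sup_of_normal_right] at ha
  obtain ⟨y, hy, c, hc, rfl⟩ := ha
  obtain ⟨n, rfl⟩ := Subgroup.mem_zpowers_iff.1 hy
  exact ⟨n, c, hc, rfl⟩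

private theorem xcl_ind (n : ℕ) : ∀ (G : Type) [Group G] [Finite G], Nat.card G = n →
    commutator G ≤ Subgroup.center G → SA G := by
  induction n using Nat.strong_induction_on with
  | _ n ih =>
    intro G _ _ hn hG
    rcases eq_top_or_exists_le_coatom (⊥ : Subgroup G) with h0 | ⟨H, hH, -⟩
    · refine SA.triv G fun x => ?_
      have h1 : x ∈ (⊥ : Subgroup G) := h0 ▸ Subgroup.mem_top x
      exact Subgroup.mem_bot.1 h1
    · obtain ⟨x, hx⟩ : ∃ x, x ∉ H := by
        by_contra hcon
        push Not at hcon
        exact hH.1 ((Subgroup.eq_top_iff' H).2 hcon)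
      have hcc : ∀ g h : G, g * h * g⁻¹ * h⁻¹ ∈ Subgroup.center G := fun g h =>
        hG (Subgroup.commutator_mem_commutator (Subgroup.mem_top g) (Subgroup.mem_top h))
      set A : Subgroup G := Subgroup.zpowers x ⊔ Subgroup.center G with hA
      have hCA : Subgroup.center G ≤ A := le_sup_right
      have hxA : x ∈ A := (le_sup_left : Subgroup.zpowers x ≤ A) (Subgroup.mem_zpowers x)
      have hAn : A.Normal := by
        refine ⟨fun a ha g => ?_⟩
        have h1 : g * a * g⁻¹ = g * a * g⁻¹ * a⁻¹ * a := by group
        rw [h1]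
        exact A.mul_mem (hCA (hcc g a)) ha
      have hAc : ∀ a ∈ A, ∀ b ∈ A, a * b = b * a := by
        intro a ha b hb
        obtain ⟨n, c, hc, rfl⟩ := xcl_form x a ha
        obtain ⟨m, d, hd, rfl⟩ := xcl_form x b hb
        have hc1 := Subgroup.mem_center_iff.1 hc
        have hd1 := Subgroup.mem_center_iff.1 hd
        calc x ^ n * c * (x ^ m * d) = x ^ n * (c * x ^ m) * d := by group
          _ = x ^ n * (x ^ m * c) * d := by rw [hc1]
          _ = x ^ n * x ^ m * (c * d) := by group
          _ = x ^ m * x ^ n * (d * c) := by rw [hc1 d, ← zpow_add, ← zpow_add, add_comm]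
          _ = x ^ m * (x ^ n * d) * c := by group
          _ = x ^ m * (d * x ^ n) * c := by rw [hd1]
          _ = x ^ m * d * (x ^ n * c) := by group
      have hsup : A ⊔ H = ⊤ := by
        apply hH.2
        refine lt_of_le_of_ne le_sup_right fun h => hx ?_
        rw [h]
        exact (le_sup_left : A ≤ A ⊔ H) hxA
      refine SA.step G A H hAn hAc (fun g => ?_) ?_
      · have hg : g ∈ A ⊔ H := hsup ▸ Subgroup.mem_top g
        rw [Subgroup.mem_sup_of_normal_left] at hg
        obtain ⟨a, ha, h, hh, rfl⟩ := hg
        exact ⟨a, ha, h, hh, rfl⟩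
      · refine ih (Nat.card H) ?_ H rfl ?_
        · rw [← hn]
          exact lt_of_le_of_ne (Subgroup.card_le_card_group H) fun h =>
            hH.1 (Subgroup.eq_top_of_card_eq H h)
        · rw [commutator_eq_closure, Subgroup.closure_le]
          rintro _ ⟨g, h, rfl⟩
          refine Subgroup.mem_center_iff.2 fun y => ?_
          apply Subtype.ext
          have h1 := Subgroup.mem_center_iff.1 (hcc (g : G) (h : G)) (y : G)
          exact h1

/-- groups of class at most two are semiabelian -/
theorem sxCl : SxCl := fun G _ _ hG => xcl_ind _ G rfl hG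

end Pool.Agent.EX
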