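import Pool.Agent.EX.Stm
import Pool.Agent.H98.MF.C.H0

/-!
# EX4: the universal cochain of a finite Galois extension
-/

set_option autoImplicit false

open scoped BigOperators
open NumberField IsDedekindDomain

namespace Pool.Agent.EX

open Pool.Agent.H98.MF (Om Gm nrm)
open Pool.Agent.H98.MF.B (loc_of_values)

section

variable {E : Type} [Field E] {m : ℕ} [NeZero m]

/-- powers with exponents modulo `m` -/
private def zp (ζ : E) (a : ZMod m) : E := ζ ^ a.val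

private theorem coc_nat {ζ : E} (hζ : IsPrimitiveRoot ζ m) (n : ℕ) :
    zp ζ ((n : ℕ) : ZMod m) = ζ ^ n := by
  unfold zp
  rw [ZMod.val_natCast]
  exact (pow_eq_pow_mod n hζ.pow_eq_one).symm

private theorem coc_add {ζ : E} (hζ : IsPrimitiveRoot ζ m) (a b : ZMod m) :
    zp ζ (a + b) = zp ζ a * zp ζ b := by
  have h := coc_nat hζ (a.val + b.val)
  rw [Nat.cast_add, ZMod.natCast_zmod_val, ZMod.natCast_zmod_val] at h
  rw [h, pow_add]
  rfl

private theorem coc_mul {ζ : E} (hζ : IsPrimitiveRoot ζ m) (a b : ZMod m) :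
    zp ζ (a * b) = zp ζ a ^ b.val := by
  have h := coc_nat hζ (a.val * b.val)
  rw [Nat.cast_mul, ZMod.natCast_zmod_val, ZMod.natCast_zmod_val] at h
  rw [h, pow_mul]
  rfl

private theorem coc_inj {ζ : E} (hζ : IsPrimitiveRoot ζ m) {a b : ZMod m}
    (h : zp ζ a = zp ζ b) : a = b :=
  ZMod.val_injective m (hζ.pow_inj (ZMod.val_lt a) (ZMod.val_lt b) h)

private theorem coc_ex {ζ : E} (hζ : IsPrimitiveRoot ζ m) {u v : E} (hv : v ≠ 0)
    (h : u ^ m = v ^ m) : ∃ a : ZMod m, u = zp ζ a * v := by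
  have h1 : (u / v) ^ m = 1 := by
    rw [div_pow, h, div_self (pow_ne_zero _ hv)]
  obtain ⟨i, -, hi⟩ := hζ.eq_pow_of_pow_eq_one h1
  refine ⟨(i : ZMod m), ?_⟩
  rw [coc_nat hζ, hi, div_mul_cancel₀ _ hv]

end

/-- EX4 -/
theorem sxCoc (hI : SxInd) (hK : SxKum) : SxCoc := by
  classical
  intro k _ _ F _ _ m _ ζ hζ hζF r
  haveI : NumberField F := NumberField.of_module_finite k F
  letI : Fintype (F ≃ₐ[k] F) := Fintype.ofFinite _
  have hm : 1 ≤ m := Nat.pos_of_ne_zero (NeZero.ne m)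
  -- the restriction
  let res : Gm k →* (F ≃ₐ[k] F) := AlgEquiv.restrictNormalHom F
  have hres : ∀ (σ : Gm k) (x : F), ((res σ x : F) : Om k) = σ (x : Om k) := fun σ x =>
    AlgEquiv.restrictNormal_commutes σ F x
  -- the elements
  obtain ⟨b, hb⟩ := hI F (F ≃ₐ[k] F) (fun s => (s : F ≃+* F))
    (fun s t h => AlgEquiv.ext fun x => RingEquiv.congr_fun h x) m r hm
  let B : (F ≃ₐ[k] F) × Fin r → F := fun x => x.1 (b x.2 : F)
  have hB0 : ∀ x, B x ≠ 0 := fun x => by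
    have h1 : (b x.2 : F) ≠ 0 := (b x.2).ne_zero
    exact (map_ne_zero x.1).2 h1
  have hroot : ∀ x, ∃ z : Om k, z ^ m = (B x : Om k) := fun x =>
    IsAlgClosed.exists_pow_nat_eq _ hm
  choose β hβ using hroot
  have hβ0 : ∀ x, β x ≠ 0 := fun x h => by
    have h1 := hβ x
    rw [h, zero_pow (NeZero.ne m)] at h1
    exact hB0 x (by exact_mod_cast h1.symm)
  -- the cyclotomic character
  have hω : ∀ d : F ≃ₐ[k] F, ∃ a : ZMod m, ((d ⟨ζ, hζF⟩ : F) : Om k) = zp ζ a := by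
    intro d
    have h1 : ((⟨ζ, hζF⟩ : F)) ^ m = 1 := Subtype.ext hζ.pow_eq_one
    have h2 : ((d ⟨ζ, hζF⟩ : F) : Om k) ^ m = (1 : Om k) ^ m := by
      rw [one_pow, ← SubmonoidClass.coe_pow, ← map_pow, h1, map_one]
      rfl
    obtain ⟨a, ha⟩ := coc_ex hζ one_ne_zero h2
    exact ⟨a, by rw [ha, mul_one]⟩
  choose ω hω using hω
  have hωσ : ∀ (σ : Gm k), σ ζ = zp ζ (ω (res σ)) := fun σ => by
    rw [← hω]
    exact (hres σ ⟨ζ, hζF⟩).symm
  have hz : ∀ a : ZMod m, ((((⟨ζ, hζF⟩ : F)) ^ a.val : F) : Om k) = zp ζ a := fun a => rfl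
  have hωm : ∀ d d' : F ≃ₐ[k] F, ω (d * d') = ω d * ω d' := by
    intro d d'
    refine coc_inj hζ ?_
    rw [← hω, AlgEquiv.mul_apply, coc_mul hζ, ← hω d]
    have h1 : d' ⟨ζ, hζF⟩ = (⟨ζ, hζF⟩ : F) ^ (ω d').val := Subtype.ext (hω d')
    rw [h1, map_pow]
    rfl
  have hω1 : ω 1 = 1 := by
    refine coc_inj hζ ?_
    rw [← hω]
    have h1 := coc_nat hζ 1
    rw [Nat.cast_one, pow_one] at h1
    rw [h1]
    rfl
  have hωi : ∀ d : F ≃ₐ[k] F, ω d⁻¹ * ω d = 1 := fun d => by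
    rw [← hωm, inv_mul_cancel, hω1]
  -- the cochain
  let pre : Gm k → (F ≃ₐ[k] F) × Fin r → (F ≃ₐ[k] F) × Fin r :=
    fun σ x => ((res σ)⁻¹ * x.1, x.2)
  have hBσ : ∀ (σ : Gm k) (y : (F ≃ₐ[k] F) × Fin r), σ (B (pre σ y) : Om k) = (B y : Om k) := by
    intro σ y
    rw [← hres]
    show ((res σ (((res σ)⁻¹ * y.1) (b y.2 : F)) : F) : Om k) = ((y.1 (b y.2 : F) : F) : Om k)
    rw [← AlgEquiv.mul_apply, mul_inv_cancel_left]
  have hc : ∀ (σ : Gm k) (y : (F ≃ₐ[k] F) × Fin r), ∃ a : ZMod m,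
      σ (β (pre σ y)) = zp ζ a * β y := by
    intro σ y
    refine coc_ex hζ (hβ0 y) ?_
    rw [← map_pow, hβ, hβ, hBσ]
  choose c hc using hc
  refine ⟨fun σ y => ω y.1⁻¹ * c σ y, ?_, ?_, ?_⟩
  · -- locally constant
    obtain ⟨s, hs⟩ : ∃ s : Finset F, ∀ d d' : F ≃ₐ[k] F, (∀ x ∈ s, d x = d' x) → d = d' := by
      let bs := Module.finBasis k F
      refine ⟨Finset.univ.image bs, fun d d' h => ?_⟩
      have h1 : d.toLinearMap = d'.toLinearMap :=
        bs.ext fun i => h _ (Finset.mem_image_of_mem _ (Finset.mem_univ i))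
      exact AlgEquiv.ext fun x => LinearMap.congr_fun h1 x
    refine loc_of_values (s.image (fun x : F => (x : Om k)) ∪ Finset.univ.image β) _
      fun σ τ h => ?_
    have h1 : res σ = res τ := by
      refine hs _ _ fun x hx => Subtype.ext ?_
      rw [hres, hres]
      exact h _ (Finset.mem_union_left _ (Finset.mem_image_of_mem _ hx))
    have h2 : ∀ x, σ (β x) = τ (β x) := fun x =>
      h _ (Finset.mem_union_right _ (Finset.mem_image_of_mem _ (Finset.mem_univ x)))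
    funext y
    have h3 : c σ y = c τ y := by
      refine coc_inj hζ (mul_right_cancel₀ (hβ0 y) ?_)
      have h4 : pre σ y = pre τ y := by
        show ((res σ)⁻¹ * y.1, y.2) = ((res τ)⁻¹ * y.1, y.2)
        rw [h1]
      rw [← hc, ← hc, h4, h2]
    show ω y.1⁻¹ * c σ y = ω y.1⁻¹ * c τ y
    rw [h3]
  · -- the cocycle relation
    intro σ τ y
    have h1 : c (σ * τ) y = c σ y + ω (res σ) * c τ (pre σ y) := by
      refine coc_inj hζ (mul_right_cancel₀ (hβ0 y) ?_)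
      have h2 : pre (σ * τ) y = pre τ (pre σ y) := by
        show ((res (σ * τ))⁻¹ * y.1, y.2) = ((res τ)⁻¹ * ((res σ)⁻¹ * y.1), y.2)
        rw [map_mul, mul_inv_rev, mul_assoc]
      have h3 : σ (zp ζ (c τ (pre σ y))) = zp ζ (ω (res σ) * c τ (pre σ y)) := by
        rw [coc_mul hζ, ← hωσ, ← map_pow]
        rfl
      rw [← hc, h2, AlgEquiv.mul_apply, hc, map_mul, h3, hc, coc_add hζ]
      ring
    show ω y.1⁻¹ * c (σ * τ) y = ω y.1⁻¹ * c σ y + ω ((res σ)⁻¹ * y.1)⁻¹ * c τ (pre σ y)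
    rw [h1, mul_inv_rev, inv_inv, hωm]
    ring
  · -- surjectivity
    intro ε
    obtain ⟨τ, h1, h2⟩ := hK k F m hm ζ hζ hζF ((F ≃ₐ[k] F) × Fin r) B hB0 hb β hβ
      (fun y => (ω y.1 * ε y).val)
    have h3 : res τ = 1 := by
      refine AlgEquiv.ext fun x => Subtype.ext ?_
      rw [hres, h1 _ x.2]
      rfl
    refine ⟨τ, h3, ?_⟩
    funext y
    have h4 : c τ y = ω y.1 * ε y := by
      refine coc_inj hζ (mul_right_cancel₀ (hβ0 y) ?_)
      have h5 : pre τ y = y := by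
        show ((res τ)⁻¹ * y.1, y.2) = y
        rw [h3, inv_one, one_mul]
      rw [← hc, h5, h2]
      rfl
    show ω y.1⁻¹ * c τ y = ε y
    rw [h4, ← mul_assoc, hωi, one_mul]

end Pool.Agent.EX
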