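import Pool.Agent.EX.Stm

/-!
# Semiabelian groups and groups of class at most two occur: assembly
-/

set_option autoImplicit false

open scoped BigOperators
open NumberField IsDedekindDomain

namespace Pool.Agent.EX

open Pool.Agent.H98.MF (Om Gm nrm)

/-- semiabelian groups occur -/
theorem sxOcc (h : SxStep) : SxOcc := by
  intro k _ _ G _ hG hS
  revert hG
  induction hS with
  | triv G h1 =>
    intro _
    exact ⟨1, fun x => ⟨1, by rw [map_one]; exact (h1 x).symm⟩, IsLocallyConstant.const 1⟩
  | step G A H hA hab hgen _ ih =>
    intro hG
    exact h k G A H hA hab hgen ih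

/-- groups of class at most two occur -/
theorem sxTwo (h : SxStep) (hc : SxCl) : SxTwo := by
  intro k _ _ G _ _ hG
  exact sxOcc h k G (hc G hG)

end Pool.Agent.EX
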