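import Pool.Agent.EX.Stm
import Pool.Agent.H98.MF.C.Bas

/-!
# Existence of Galois extensions with semiabelian group, EX2: elements with independent conjugates
-/

set_option autoImplicit false

open scoped BigOperators nonZeroDivisors
open NumberField IsDedekindDomain

namespace Pool.Agent.EX

open Pool.Agent.H98.MF (Om Gm nrm ord)
open Pool.Agent.H98.MF
open NumberField.RingOfIntegers (mapRingEquiv mapRingEquiv_apply)

section

variable {F : Type} [Field F] [NumberField F]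

theorem ind_cnt_le_iff (P : HeightOneSpectrum (𝓞 F)) (J : Ideal (𝓞 F)) (hJ : J ≠ ⊥) (n : ℕ) :
    (n : ℤ) ≤ FractionalIdeal.count F P (J : FractionalIdeal (𝓞 F)⁰ F) ↔ J ≤ P.asIdeal ^ n := by
  classical
  rw [FractionalIdeal.count_coe F P hJ, Nat.cast_le, ← Associates.prime_pow_dvd_iff_le
    (Associates.mk_ne_zero.mpr hJ) P.associates_irreducible, ← Associates.mk_pow,
    Associates.mk_le_mk_iff_dvd, Ideal.dvd_iff_le]

theorem ind_le_ord_iff (P : HeightOneSpectrum (𝓞 F)) (α : 𝓞 F) (hα : α ≠ 0) (n : ℕ) :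
    (n : ℤ) ≤ ord P (α : F) ↔ α ∈ P.asIdeal ^ n := by
  have h : ord P (α : F) =
      FractionalIdeal.count F P ((Ideal.span {α} : Ideal (𝓞 F)) : FractionalIdeal (𝓞 F)⁰ F) := by
    unfold ord
    rw [FractionalIdeal.coeIdeal_span_singleton]
  rw [h, ind_cnt_le_iff P _ (by rwa [Ne, Ideal.span_singleton_eq_bot]),
    Ideal.span_singleton_le_iff_mem]

theorem ind_ord_zero (P : HeightOneSpectrum (𝓞 F)) (α : 𝓞 F) (h : α ∉ P.asIdeal) :
    ord P (α : F) = 0 := by
  have h0 : α ≠ 0 := fun e => h (e ▸ P.asIdeal.zero_mem)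
  have h1 := (ind_le_ord_iff P α h0 0).2 (by simp)
  have h2 := (not_congr (ind_le_ord_iff P α h0 1)).2 (by rwa [pow_one])
  push_cast at h1 h2
  linarith [not_le.1 h2, Int.lt_add_one_iff.1 (by linarith [not_le.1 h2] :
    ord P (α : F) < 0 + 1)]

theorem ind_ord_one (P : HeightOneSpectrum (𝓞 F)) (α : 𝓞 F) (h1 : α ∈ P.asIdeal)
    (h2 : α ∉ P.asIdeal ^ 2) : ord P (α : F) = 1 := by
  have h0 : α ≠ 0 := fun e => h2 (e ▸ (P.asIdeal ^ 2).zero_mem)
  have h3 := (ind_le_ord_iff P α h0 1).2 (by rwa [pow_one])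
  have h4 := (not_congr (ind_le_ord_iff P α h0 2)).2 h2
  push_cast at h3 h4
  have h5 := Int.lt_add_one_iff.1 (by linarith [not_le.1 h4] : ord P (α : F) < 1 + 1)
  linarith

/-- an automorphism that is not trivial moves an integer -/
theorem ind_move (σ : F ≃+* F) (hσ : σ ≠ RingEquiv.refl F) :
    ∃ θ : 𝓞 F, mapRingEquiv σ θ - θ ≠ 0 := by
  by_contra hc
  push Not at hc
  apply hσ
  ext x
  obtain ⟨a, b, hb, rfl⟩ := IsFractionRing.div_surjective (A := 𝓞 F) x
  have e : ∀ c : 𝓞 F, σ (algebraMap (𝓞 F) F c) = algebraMap (𝓞 F) F c := fun c => by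
    have h := congrArg (algebraMap (𝓞 F) F) (sub_eq_zero.1 (hc c))
    exact h
  rw [map_div₀, e, e]
  rfl

/-- every residue class is the class of a natural number -/
theorem ind_nat (P : HeightOneSpectrum (𝓞 F)) (hP : (nrm P).Prime) (θ : 𝓞 F) :
    ∃ c : ℕ, θ - (c : 𝓞 F) ∈ P.asIdeal := by
  have h1 : Nat.card (𝓞 F ⧸ P.asIdeal) = nrm P := by
    unfold nrm
    rw [Ideal.absNorm_apply, Submodule.cardQuot_apply]
  have hfin : Finite (𝓞 F ⧸ P.asIdeal) := Nat.finite_of_card_ne_zero (by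
    rw [h1]
    exact hP.ne_zero)
  let _ := Fintype.ofFinite (𝓞 F ⧸ P.asIdeal)
  have : NeZero (nrm P) := ⟨hP.ne_zero⟩
  have h2 : Fintype.card (𝓞 F ⧸ P.asIdeal) = nrm P := by rw [← h1, Nat.card_eq_fintype_card]
  let e := ZMod.ringEquivOfPrime (𝓞 F ⧸ P.asIdeal) hP h2
  refine ⟨(e.symm (Ideal.Quotient.mk P.asIdeal θ)).val, ?_⟩
  rw [← Ideal.Quotient.eq, map_natCast]
  have h3 : e (((e.symm (Ideal.Quotient.mk P.asIdeal θ)).val : ℕ) : ZMod (nrm P)) =
      Ideal.Quotient.mk P.asIdeal θ := by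
    rw [ZMod.natCast_zmod_val]
    exact e.apply_symm_apply _
  rw [map_natCast] at h3
  exact h3.symm

/-- the primes fixed by a nontrivial automorphism -/
theorem ind_fix (σ : F ≃+* F) (hσ : σ ≠ RingEquiv.refl F) :
    {P : HeightOneSpectrum (𝓞 F) | (nrm P).Prime ∧
      ∀ x ∈ P.asIdeal, mapRingEquiv σ x ∈ P.asIdeal}.Finite := by
  obtain ⟨θ, hθ⟩ := ind_move σ hσ
  refine (B.ord_finite ((mapRingEquiv σ θ - θ : 𝓞 F) : F)
    (fun h => hθ (RingOfIntegers.coe_eq_zero_iff.1 h))).subset ?_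
  rintro P ⟨hP, h⟩
  obtain ⟨c, hc⟩ := ind_nat P hP θ
  have h1 := h _ hc
  rw [map_sub, map_natCast] at h1
  have h2 : mapRingEquiv σ θ - θ ∈ P.asIdeal := by
    have h3 := P.asIdeal.sub_mem h1 hc
    rwa [sub_sub_sub_cancel_right] at h3
  have h3 := (ind_le_ord_iff P _ hθ 1).2 (by rwa [pow_one])
  rw [Nat.cast_one] at h3
  show ord P ((mapRingEquiv σ θ - θ : 𝓞 F) : F) ≠ 0
  intro h4
  rw [h4] at h3
  norm_num at h3

theorem ind_fib (n : ℕ) : {Q : HeightOneSpectrum (𝓞 F) | nrm Q = n}.Finite := by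
  refine Set.Finite.preimage (f := fun Q : HeightOneSpectrum (𝓞 F) => Q.asIdeal) ?_
    (Ideal.finite_setOfPred_absNorm_eq (S := 𝓞 F) n)
  intro Q _ Q' _ h
  exact HeightOneSpectrum.ext h

/-- primes with different prime norms in an infinite set -/
theorem ind_pick (G : Set (HeightOneSpectrum (𝓞 F))) (hG : G.Infinite) :
    ∃ P : ℕ → HeightOneSpectrum (𝓞 F), (∀ l, P l ∈ G) ∧ Function.Injective fun l => nrm (P l) := by
  have h1 : (nrm '' G : Set ℕ).Infinite := by
    intro hf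
    apply hG
    refine (hf.biUnion fun n _ => ind_fib n).subset ?_
    intro Q hQ
    exact Set.mem_biUnion (Set.mem_image_of_mem nrm hQ) rfl
  let g := h1.natEmbedding
  choose P hP using fun l => (g l).2
  refine ⟨P, fun l => (hP l).1, ?_⟩
  intro l l' h
  have h2 : nrm (P l) = nrm (P l') := h
  rw [(hP l).2, (hP l').2] at h2
  exact g.injective (Subtype.ext h2)

/-- different residue characteristics -/
theorem ind_char (σ : F ≃+* F) (P Q : HeightOneSpectrum (𝓞 F)) (hP : (nrm P).Prime)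
    (hQ : (nrm Q).Prime) (hne : nrm P ≠ nrm Q) :
    ¬ ∀ x ∈ P.asIdeal, mapRingEquiv σ x ∈ Q.asIdeal := by
  intro h
  have h1 := h _ (Ideal.absNorm_mem P.asIdeal)
  rw [map_natCast] at h1
  have h2 := Ideal.absNorm_mem Q.asIdeal
  have h3 : IsCoprime ((nrm P : ℕ) : 𝓞 F) ((nrm Q : ℕ) : 𝓞 F) :=
    ((Nat.coprime_primes hP hQ).2 hne).cast
  obtain ⟨a, b, hab⟩ := h3
  apply Q.isPrime.ne_top
  rw [Ideal.eq_top_iff_one, ← hab]
  exact Q.asIdeal.add_mem (Q.asIdeal.mul_mem_left a h1) (Q.asIdeal.mul_mem_left b h2)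

/-- elements that avoid finitely many primes -/
theorem ind_avoid {T : Type} (s : Finset T) (f : T → F ≃+* F)
    (q : T → HeightOneSpectrum (𝓞 F)) (P : HeightOneSpectrum (𝓞 F))
    (h : ∀ t ∈ s, ¬ ∀ x ∈ P.asIdeal, mapRingEquiv (f t) x ∈ (q t).asIdeal) :
    ∃ b : 𝓞 F, b ∈ P.asIdeal ∧ b ∉ P.asIdeal ^ 2 ∧
      ∀ t ∈ s, mapRingEquiv (f t) b ∉ (q t).asIdeal := by
  classical
  let g : Option T → Ideal (𝓞 F) := fun o => o.elim (P.asIdeal ^ 2)
    fun t => Ideal.comap (mapRingEquiv (f t)) (q t).asIdeal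
  have h1 : ¬ ((P.asIdeal : Set (𝓞 F)) ⊆ ⋃ o ∈ (↑(Finset.insertNone s) : Set (Option T)),
      (g o : Set (𝓞 F))) := by
    rw [Ideal.subset_union_prime none none]
    · rintro ⟨o, ho, hle⟩
      cases o with
      | none =>
        have h2 : P.asIdeal ^ 2 < P.asIdeal ^ 1 :=
          Ideal.pow_right_strictAnti P.asIdeal P.ne_bot P.isPrime.ne_top (by norm_num)
        rw [pow_one] at h2
        exact absurd hle (not_le_of_gt h2)
      | some t =>
        exact h t (Finset.some_mem_insertNone.1 ho) fun x hx => Ideal.mem_comap.1 (hle hx)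
    · intro o _ ho _
      cases o with
      | none => exact absurd rfl ho
      | some t =>
        have := (q t).isPrime
        exact Ideal.comap_isPrime _ _
  rw [Set.not_subset] at h1
  obtain ⟨b, hb, hb2⟩ := h1
  rw [Set.mem_iUnion₂] at hb2
  push Not at hb2
  refine ⟨b, hb, hb2 none (by simp), fun t ht hx => ?_⟩
  exact hb2 (some t) (by simpa using ht) (Ideal.mem_comap.2 hx)

end

/-- EX2 -/
theorem sxInd (h : SxPr) : SxInd := by
  classical
  intro F _ _ I _ s hs m r _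
  -- the automorphisms
  let τ : I → I → F ≃+* F := fun i i' => (s i').trans (s i).symm
  have hτ : ∀ i i' x, τ i i' x = (s i).symm (s i' x) := fun i i' x => rfl
  have hτ1 : ∀ i i', i ≠ i' → τ i i' ≠ RingEquiv.refl F := by
    intro i i' hne he
    apply hne
    apply hs
    ext x
    have h1 := RingEquiv.congr_fun he x
    rw [hτ, RingEquiv.refl_apply, RingEquiv.symm_apply_eq] at h1
    exact h1.symm
  -- the primes
  have hfin : (⋃ t : I × I, {P : HeightOneSpectrum (𝓞 F) | t.1 ≠ t.2 ∧ (nrm P).Prime ∧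
      ∀ x ∈ P.asIdeal, mapRingEquiv (τ t.1 t.2) x ∈ P.asIdeal}).Finite := by
    refine Set.finite_iUnion fun t => ?_
    by_cases ht : t.1 = t.2
    · refine Set.Finite.subset Set.finite_empty ?_
      rintro P ⟨h1, -⟩
      exact h1 ht
    · exact (ind_fix _ (hτ1 _ _ ht)).subset fun P hP => hP.2
  obtain ⟨P, hPG, hPi⟩ := ind_pick _ ((h F).sdiff hfin)
  have hPp : ∀ l, (nrm (P l)).Prime := fun l => (hPG l).1
  have key : ∀ (l : Fin r) (i i' : I) (l' : Fin r), (i', l) ≠ (i, l') →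
      ¬ ∀ x ∈ (P l).asIdeal, mapRingEquiv (τ i i') x ∈ (P l').asIdeal := by
    intro l i i' l' hne
    by_cases hl : l = l'
    · subst hl
      have hi : i ≠ i' := fun e => hne (by rw [e])
      intro hx
      exact (hPG l).2 (Set.mem_iUnion.2 ⟨(i, i'), hi, hPp l, hx⟩)
    · exact ind_char _ _ _ (hPp _) (hPp _) fun e => hl (Fin.ext (hPi e))
  -- the elements
  have hb := fun l : Fin r => ind_avoid
    ((Finset.univ : Finset (I × I × Fin r)).filter fun t => (t.2.1, l) ≠ (t.1, t.2.2))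
    (fun t => τ t.1 t.2.1) (fun t => P t.2.2) (P l)
    (fun t ht => key l t.1 t.2.1 t.2.2 (Finset.mem_filter.1 ht).2)
  choose b hb1 hb2 hb3 using hb
  have hb0 : ∀ l, ((b l : 𝓞 F) : F) ≠ 0 := by
    intro l e
    apply hb2 l
    rw [RingOfIntegers.coe_eq_zero_iff.1 e]
    exact Submodule.zero_mem _
  refine ⟨fun l => Units.mk0 ((b l : 𝓞 F) : F) (hb0 l), ?_⟩
  rintro n ⟨z, hz⟩ ⟨i0, l0⟩
  have hne : ∀ x : I × Fin r, (s i0).symm (s x.1 ((b x.2 : 𝓞 F) : F)) ≠ 0 := by
    intro x e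
    rw [RingEquiv.symm_apply_eq, map_zero] at e
    exact hb0 x.2 ((map_eq_zero (s x.1)).1 e)
  let u : I × Fin r → Fˣ := fun x => Units.mk0 _ (hne x)
  have hu : ((∏ x : I × Fin r, u x ^ n x : Fˣ) : F) = ((s i0).symm z) ^ m := by
    rw [← map_pow, ← hz, map_prod, Units.coe_prod]
    refine Finset.prod_congr rfl fun x _ => ?_
    rw [Units.val_zpow_eq_zpow_val, map_zpow₀]
    rfl
  have ho := B.ord_prod (P l0) Finset.univ fun x => u x ^ n x
  rw [hu, B.ord_pow] at ho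
  have h1 : ∀ x : I × Fin r, ord (P l0) ((u x ^ n x : Fˣ) : F) =
      if x = (i0, l0) then n x else 0 := by
    intro x
    rw [Units.val_zpow_eq_zpow_val, B.ord_zpow]
    by_cases hx : x = (i0, l0)
    · rw [if_pos hx]
      have e1 : (u x : F) = ((b l0 : 𝓞 F) : F) := by
        show (s i0).symm (s x.1 ((b x.2 : 𝓞 F) : F)) = _
        rw [hx]
        exact (s i0).symm_apply_apply _
      rw [e1, ind_ord_one (P l0) (b l0) (hb1 l0) (hb2 l0), mul_one]
    · rw [if_neg hx]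
      have e1 : (u x : F) = ((mapRingEquiv (τ i0 x.1) (b x.2) : 𝓞 F) : F) := rfl
      have h2 := hb3 x.2 (i0, x.1, l0) (Finset.mem_filter.2 ⟨Finset.mem_univ _, hx⟩)
      rw [e1, ind_ord_zero (P l0) _ h2, mul_zero]
  rw [Finset.sum_congr rfl fun x _ => h1 x, Finset.sum_ite_eq' Finset.univ (i0, l0),
    if_pos (Finset.mem_univ _)] at ho
  exact ⟨_, ho.symm⟩

end Pool.Agent.EX
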