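import Pool.Agent.EX.Stm
import Mathlib.GroupTheory.FiniteAbelian.Duality
import Mathlib.RingTheory.RootsOfUnity.AlgebraicallyClosed
import Mathlib.FieldTheory.Galois.Infinite

/-!
# Row EX3: the Galois group of a Kummer extension
-/

set_option autoImplicit false

open scoped BigOperators
open NumberField IsDedekindDomain

namespace Pool.Agent.EX

open Pool.Agent.H98.MF (Om Gm nrm)

theorem kum_mod {R : Type} [Monoid R] {z : R} {m : ℕ} (h : z ^ m = 1) (n : ℕ) :
    z ^ (n % m) = z ^ n := by
  conv_rhs => rw [← Nat.div_add_mod n m, pow_add, pow_mul, h, one_pow, one_mul]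

theorem kum_add {R : Type} [Monoid R] {z : R} {m : ℕ} [NeZero m] (h : z ^ m = 1)
    (a b : ZMod m) : z ^ (a + b).val = z ^ a.val * z ^ b.val := by
  rw [ZMod.val_add, kum_mod h, pow_add]

theorem kum_neg {R : Type} [Monoid R] {z : R} {m : ℕ} [NeZero m] (h : z ^ m = 1)
    (a : ZMod m) : z ^ (-a).val * z ^ a.val = 1 := by
  rw [← kum_add h, neg_add_cancel, ZMod.val_zero, pow_zero]

section

variable {k : Type} [Field k] [NumberField k] (F : IntermediateField k (Om k)) {m : ℕ}
  [NeZero m] {ζ : Om k} (hζ : ζ ^ m = 1) (hF : ζ ∈ F) {J : Type} [Fintype J] (β : J → Om k)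

/-- the exponents attained by the automorphisms fixing `F` -/
def kumV : Subgroup (Multiplicative (J → ZMod m)) where
  carrier := {v | ∃ τ : Gm k, (∀ x ∈ F, τ x = x) ∧
    ∀ j, τ (β j) = ζ ^ (Multiplicative.toAdd v j).val * β j}
  one_mem' := ⟨1, fun x _ => rfl, fun j => by
    show β j = ζ ^ (0 : ZMod m).val * β j
    rw [ZMod.val_zero, pow_zero, one_mul]⟩
  mul_mem' := by
    rintro v w ⟨τ, h1, h2⟩ ⟨σ, h3, h4⟩
    refine ⟨τ * σ, fun x hx => ?_, fun j => ?_⟩
    · rw [AlgEquiv.mul_apply, h3 x hx, h1 x hx]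
    · have h5 : Multiplicative.toAdd (v * w) j =
          Multiplicative.toAdd v j + Multiplicative.toAdd w j := rfl
      rw [AlgEquiv.mul_apply, h4 j, map_mul, map_pow, h1 ζ hF, h2 j, h5, kum_add hζ]
      ring
  inv_mem' := by
    rintro v ⟨τ, h1, h2⟩
    have h6 : ∀ x, τ⁻¹ (τ x) = x := fun x => by
      rw [← AlgEquiv.mul_apply, inv_mul_cancel, AlgEquiv.one_apply]
    have h7 : ∀ x ∈ F, τ⁻¹ x = x := fun x hx => by
      conv_lhs => rw [← h1 x hx]
      exact h6 x
    refine ⟨τ⁻¹, h7, fun j => ?_⟩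
    have h5 : Multiplicative.toAdd v⁻¹ j = -(Multiplicative.toAdd v j) := rfl
    have h8 := h6 (β j)
    rw [h2 j, map_mul, map_pow, h7 ζ hF] at h8
    rw [h5]
    conv_rhs => rw [← h8]
    rw [← mul_assoc, kum_neg hζ, one_mul]

end

theorem sxKum : SxKum := by
  classical
  intro k _ _ F m hm ζ hζ hF J _ b hb hind β hβ ε
  have : NeZero m := ⟨by omega⟩
  have hζ1 : ζ ^ m = 1 := hζ.pow_eq_one
  have hβ0 : ∀ j, β j ≠ 0 := by
    intro j h
    have h1 := hβ j
    rw [h, zero_pow (NeZero.ne m)] at h1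
    exact hb j (Subtype.ext h1.symm)
  have hN : NeZero ((Monoid.exponent (Multiplicative (J → ZMod m)) : ℕ) : k) :=
    ⟨Nat.cast_ne_zero.2 Monoid.exponent_ne_zero_of_finite⟩
  -- every exponent is attained
  have key : ∀ x : Multiplicative (J → ZMod m), x ∈ kumV F hζ1 hF β := by
    intro x
    refine (CommGroup.forall_monoidHom_apply_eq_one_iff (Om k) (kumV F hζ1 hF β) x).1 ?_
    intro φ hφ
    -- the values at the generators
    have hu : ∀ j, ∃ n < m, ζ ^ n = ((φ (Multiplicative.ofAdd (Pi.single j 1)) : (Om k)ˣ) :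
        Om k) := by
      intro j
      refine hζ.eq_pow_of_pow_eq_one ?_
      rw [← Units.val_pow_eq_pow_val, ← map_pow, ← ofAdd_nsmul]
      have h1 : m • (Pi.single j (1 : ZMod m) : J → ZMod m) = 0 := by
        funext i
        rw [Pi.smul_apply, nsmul_eq_mul, Pi.zero_apply, ZMod.natCast_self, zero_mul]
      rw [h1, ofAdd_zero, map_one, Units.val_one]
    choose n _ hn using hu
    have hval : ∀ v : J → ZMod m, ((φ (Multiplicative.ofAdd v) : (Om k)ˣ) : Om k) =
        ∏ j, (ζ ^ n j) ^ (v j).val := by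
      intro v
      have h1 : v = ∑ j, (v j).val • (Pi.single j (1 : ZMod m) : J → ZMod m) := by
        funext i
        rw [Finset.sum_apply, Finset.sum_eq_single i]
        · rw [Pi.smul_apply, Pi.single_eq_same, nsmul_eq_mul, mul_one, ZMod.natCast_zmod_val]
        · intro j _ hj
          rw [Pi.smul_apply, Pi.single_eq_of_ne (Ne.symm hj), smul_zero]
        · intro h
          exact absurd (Finset.mem_univ i) h
      conv_lhs => rw [h1]
      rw [ofAdd_sum, map_prod, Units.coe_prod]
      refine Finset.prod_congr rfl fun j _ => ?_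
      rw [ofAdd_nsmul, map_pow, Units.val_pow_eq_pow_val, hn j]
    -- the product of the powers lies in `F`
    have hz : ∏ j, β j ^ n j ∈ F := by
      have h0 : ∏ j, β j ^ n j ∈ IntermediateField.fixedField F.fixingSubgroup := by
        rw [IntermediateField.mem_fixedField_iff]
        intro τ hτ
        have hτF : ∀ x ∈ F, τ x = x := fun x hx =>
          (IntermediateField.mem_fixingSubgroup_iff F τ).1 hτ x hx
        have hi : ∀ j, ∃ i < m, ζ ^ i = τ (β j) / β j := by
          intro j
          refine hζ.eq_pow_of_pow_eq_one ?_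
          rw [div_pow, ← map_pow, hβ j, hτF _ (b j).2, div_self]
          intro h
          exact hb j (Subtype.ext h)
        choose i him hi using hi
        have hiv : ∀ j, ((i j : ℕ) : ZMod m).val = i j := fun j => ZMod.val_cast_of_lt (him j)
        have hτβ : ∀ j, τ (β j) = ζ ^ i j * β j := by
          intro j
          rw [hi j, div_mul_cancel₀ _ (hβ0 j)]
        have hmem : Multiplicative.ofAdd (fun j => ((i j : ℕ) : ZMod m)) ∈
            kumV F hζ1 hF β := by
          refine ⟨τ, hτF, fun j => ?_⟩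
          show τ (β j) = ζ ^ ((i j : ℕ) : ZMod m).val * β j
          rw [hiv j, hτβ j]
        have h1 := hval (fun j => ((i j : ℕ) : ZMod m))
        rw [hφ _ hmem, Units.val_one] at h1
        rw [map_prod]
        have h2 : ∀ j, τ (β j ^ n j) = (ζ ^ n j) ^ ((i j : ℕ) : ZMod m).val * β j ^ n j := by
          intro j
          rw [map_pow, hτβ j, mul_pow, hiv j, ← pow_mul, ← pow_mul, mul_comm (i j)]
        rw [Finset.prod_congr rfl fun j _ => h2 j, Finset.prod_mul_distrib, ← h1, one_mul]
      rwa [InfiniteGalois.fixedField_fixingSubgroup] at h0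
    have hdvd := hind (fun j => (n j : ℤ)) ⟨⟨_, hz⟩, by
      apply Subtype.ext
      push_cast
      rw [← Finset.prod_pow]
      refine Finset.prod_congr rfl fun j _ => ?_
      have h5 : ((b j ^ ((n j : ℕ) : ℤ) : F) : Om k) = (b j : Om k) ^ n j := by
        rw [zpow_natCast]
        rfl
      rw [h5, ← hβ j, ← pow_mul, ← pow_mul, mul_comm]⟩
    apply Units.ext
    have h3 := hval (Multiplicative.toAdd x)
    have h4 : Multiplicative.ofAdd (Multiplicative.toAdd x) = x := rfl
    rw [h4] at h3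
    rw [h3, Units.val_one]
    refine Finset.prod_eq_one fun j _ => ?_
    obtain ⟨c, hc⟩ := Int.natCast_dvd_natCast.1 (hdvd j)
    rw [hc, pow_mul, hζ1, one_pow, one_pow]
  obtain ⟨τ, h1, h2⟩ := key (Multiplicative.ofAdd fun j => ((ε j : ℕ) : ZMod m))
  refine ⟨τ, h1, fun j => ?_⟩
  have h3 := h2 j
  have h4 : Multiplicative.toAdd (Multiplicative.ofAdd fun j => ((ε j : ℕ) : ZMod m)) j =
      ((ε j : ℕ) : ZMod m) := rfl
  rw [h4, ZMod.val_natCast, kum_mod hζ1] at h3
  exact h3

end Pool.Agent.EX
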