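import Pool.Agent.EX.Stm
import Pool.Agent.H98.MF.NNin

/-!
# EX1: infinitely many primes of prime norm
-/

set_option autoImplicit false

open scoped BigOperators
open NumberField IsDedekindDomain

namespace Pool.Agent.EX

open Pool.Agent.H98.MF (nrm nin two_le_absNorm)

section

variable {F : Type} [Field F] [NumberField F]

/-- the rational prime below -/
private noncomputable def prP (Q : HeightOneSpectrum (𝓞 F)) : ℕ :=
  Ideal.absNorm (Ideal.under ℤ Q.asIdeal)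

omit [NumberField F] in
private theorem prP_prime (Q : HeightOneSpectrum (𝓞 F)) : (prP Q).Prime := by
  have : NeZero Q.asIdeal := ⟨Q.ne_bot⟩
  exact Nat.absNorm_under_prime Q.asIdeal

private theorem prP_dvd (Q : HeightOneSpectrum (𝓞 F)) : prP Q ∣ Ideal.absNorm Q.asIdeal :=
  Int.absNorm_under_dvd_absNorm Q.asIdeal

private theorem pr_pos (Q : HeightOneSpectrum (𝓞 F)) : 0 < Ideal.absNorm Q.asIdeal :=
  lt_of_lt_of_le two_pos (two_le_absNorm Q)

private theorem pr_dvd_pow (Q : HeightOneSpectrum (𝓞 F)) :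
    Ideal.absNorm Q.asIdeal ∣ prP Q ^ Module.finrank ℤ (𝓞 F) := by
  rw [← Ideal.absNorm_span_natCast]
  refine map_dvd _ ?_
  rw [Ideal.dvd_span_singleton]
  exact Int.absNorm_under_mem Q.asIdeal

private theorem pr_sq (Q : HeightOneSpectrum (𝓞 F)) (h : ¬ (nrm Q).Prime) :
    prP Q ^ 2 ≤ nrm Q := by
  have h0 : nrm Q = Ideal.absNorm Q.asIdeal := rfl
  obtain ⟨f, _, hf⟩ := (Nat.dvd_prime_pow (prP_prime Q)).1 (pr_dvd_pow Q)
  rw [← h0] at hf
  have h1 : f ≠ 0 := by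
    rintro rfl
    have := two_le_absNorm Q
    rw [← h0, hf, pow_zero] at this
    omega
  have h2 : f ≠ 1 := by
    rintro rfl
    rw [pow_one] at hf
    exact h (hf ▸ prP_prime Q)
  rw [hf]
  exact Nat.pow_le_pow_right (prP_prime Q).pos (by omega)

private theorem pr_fib (p : ℕ) (T : Finset (HeightOneSpectrum (𝓞 F)))
    (hp : p.Prime) (hT : ∀ Q ∈ T, prP Q = p) : T.card ≤ Module.finrank ℤ (𝓞 F) := by
  classical
  have h1 : (∏ Q ∈ T, Q.asIdeal) ∣ Ideal.span {(p : 𝓞 F)} := by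
    refine Finset.prod_dvd_of_coprime ?_ ?_
    · intro Q _ R _ hQR
      exact Ideal.isCoprime_of_isMaximal (fun h => hQR (HeightOneSpectrum.ext h))
    · intro Q hQ
      rw [Ideal.dvd_span_singleton, ← hT Q hQ]
      exact Int.absNorm_under_mem Q.asIdeal
  have h2 : ∏ Q ∈ T, Ideal.absNorm Q.asIdeal ∣ p ^ Module.finrank ℤ (𝓞 F) := by
    rw [← Ideal.absNorm_span_natCast, ← map_prod]
    exact map_dvd _ h1
  have h3 : p ^ T.card ≤ ∏ Q ∈ T, Ideal.absNorm Q.asIdeal := by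
    refine Finset.pow_card_le_prod T _ p fun Q hQ => ?_
    rw [← hT Q hQ]
    exact Nat.le_of_dvd (pr_pos Q) (prP_dvd Q)
  have h4 : p ^ T.card ≤ p ^ Module.finrank ℤ (𝓞 F) :=
    h3.trans (Nat.le_of_dvd (pow_pos hp.pos _) h2)
  exact (Nat.pow_le_pow_iff_right hp.one_lt).1 h4

/-- one term -/
private theorem pr_term (Q : HeightOneSpectrum (𝓞 F)) (h : ¬ (nrm Q).Prime) (s : ℝ) (hs : 1 < s) :
    (nrm Q : ℝ) ^ (-s) ≤ ((prP Q : ℝ) ^ 2)⁻¹ := by
  have hp : (1 : ℝ) ≤ prP Q := by exact_mod_cast (prP_prime Q).one_lt.le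
  have h1 : (prP Q : ℝ) ^ 2 ≤ nrm Q := by exact_mod_cast pr_sq Q h
  have h2 : (0 : ℝ) < (prP Q : ℝ) ^ 2 := by positivity
  have h3 : (1 : ℝ) ≤ nrm Q := le_trans (one_le_pow₀ hp) h1
  calc (nrm Q : ℝ) ^ (-s) ≤ (nrm Q : ℝ) ^ (-1 : ℝ) :=
        Real.rpow_le_rpow_of_exponent_le h3 (by linarith)
    _ = (nrm Q : ℝ)⁻¹ := Real.rpow_neg_one _
    _ ≤ ((prP Q : ℝ) ^ 2)⁻¹ := inv_anti₀ h2 h1

/-- the primes of non-prime norm contribute boundedly -/
private theorem pr_bd (T : Finset (HeightOneSpectrum (𝓞 F))) (hT : ∀ Q ∈ T, ¬ (nrm Q).Prime)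
    (s : ℝ) (hs : 1 < s) : ∑ Q ∈ T, (nrm Q : ℝ) ^ (-s) ≤
      Module.finrank ℤ (𝓞 F) * ∑' n : ℕ, ((n : ℝ) ^ 2)⁻¹ := by
  classical
  have hsm : Summable fun n : ℕ => ((n : ℝ) ^ 2)⁻¹ := Real.summable_nat_pow_inv.2 one_lt_two
  calc ∑ Q ∈ T, (nrm Q : ℝ) ^ (-s) ≤ ∑ Q ∈ T, ((prP Q : ℝ) ^ 2)⁻¹ :=
        Finset.sum_le_sum fun Q hQ => pr_term Q (hT Q hQ) s hs
    _ = ∑ p ∈ T.image prP, ∑ Q ∈ T with prP Q = p, ((prP Q : ℝ) ^ 2)⁻¹ :=
        (Finset.sum_fiberwise_of_maps_to (fun Q hQ => Finset.mem_image_of_mem _ hQ) _).symm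
    _ ≤ ∑ p ∈ T.image prP, (Module.finrank ℤ (𝓞 F) : ℝ) * ((p : ℝ) ^ 2)⁻¹ := by
        refine Finset.sum_le_sum fun p hp => ?_
        obtain ⟨Q0, _, hQ0⟩ := Finset.mem_image.1 hp
        have hpp : p.Prime := hQ0 ▸ prP_prime Q0
        have h1 : ∑ Q ∈ T with prP Q = p, ((prP Q : ℝ) ^ 2)⁻¹ =
            ((T.filter fun Q => prP Q = p).card : ℝ) * ((p : ℝ) ^ 2)⁻¹ := by
          rw [Finset.sum_congr rfl (g := fun _ => ((p : ℝ) ^ 2)⁻¹) fun Q hQ => by
            rw [(Finset.mem_filter.1 hQ).2], Finset.sum_const, nsmul_eq_mul]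
        rw [h1]
        refine mul_le_mul_of_nonneg_right ?_ (by positivity)
        exact_mod_cast pr_fib p _ hpp fun Q hQ => (Finset.mem_filter.1 hQ).2
    _ = Module.finrank ℤ (𝓞 F) * ∑ p ∈ T.image prP, ((p : ℝ) ^ 2)⁻¹ := by
        rw [Finset.mul_sum]
    _ ≤ _ := mul_le_mul_of_nonneg_left
        (hsm.sum_le_tsum _ fun n _ => by positivity) (Nat.cast_nonneg _)

end

/-- infinitely many primes of prime norm -/
theorem sxPr : SxPr := by
  intro F _ _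
  classical
  intro hfin
  set S : Finset (HeightOneSpectrum (𝓞 F)) := hfin.toFinset with hS
  set C : ℝ := S.card + Module.finrank ℤ (𝓞 F) * ∑' n : ℕ, ((n : ℝ) ^ 2)⁻¹ with hC
  obtain ⟨K, hK⟩ := (nin F).n4
  have h1 : ∀ s : ℝ, 1 < s → ∑' Q : HeightOneSpectrum (𝓞 F), (nrm Q : ℝ) ^ (-s) ≤ C := by
    intro s hs
    refine ((nin F).sm s hs).tsum_le_of_sum_le fun T => ?_
    rw [← Finset.sum_filter_add_sum_filter_not T (fun Q => (nrm Q).Prime)]
    refine add_le_add ?_ (pr_bd _ (fun Q hQ => (Finset.mem_filter.1 hQ).2) s hs)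
    calc ∑ Q ∈ T with (nrm Q).Prime, (nrm Q : ℝ) ^ (-s)
        ≤ ∑ Q ∈ T with (nrm Q).Prime, (1 : ℝ) := by
          refine Finset.sum_le_sum fun Q _ => ?_
          refine Real.rpow_le_one_of_one_le_of_nonpos ?_ (by linarith)
          have : 2 ≤ nrm Q := two_le_absNorm Q
          exact_mod_cast (by omega : 1 ≤ nrm Q)
      _ = ((T.filter fun Q => (nrm Q).Prime).card : ℝ) := by
          rw [Finset.sum_const, nsmul_eq_mul, mul_one]
      _ ≤ S.card := by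
          exact_mod_cast Finset.card_le_card fun Q hQ =>
            hfin.mem_toFinset.2 (Finset.mem_filter.1 hQ).2
  have hC0 : 0 ≤ C := by
    rw [hC]
    exact add_nonneg (Nat.cast_nonneg _)
      (mul_nonneg (Nat.cast_nonneg _) (tsum_nonneg fun n => by positivity))
  have hK0 : 0 ≤ K := (abs_nonneg _).trans (hK 2 one_lt_two le_rfl)
  set t : ℝ := Real.exp (-(C + K + 1)) with ht
  have ht0 : 0 < t := Real.exp_pos _
  have ht1 : t ≤ 1 := Real.exp_le_one_iff.2 (by linarith)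
  have h2 := hK (1 + t) (by linarith) (by linarith)
  have h3 := h1 (1 + t) (by linarith)
  have h4 : Real.log (1 / (1 + t - 1)) = C + K + 1 := by
    rw [add_sub_cancel_left, one_div, Real.log_inv, ht, Real.log_exp, neg_neg]
  rw [h4] at h2
  have h5 := (abs_le.1 h2).1
  linarith

end Pool.Agent.EX
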