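import Pool.Agent.EX.Stm
import Pool.Agent.H98.MF.L.ChiB

/-!
# Existence of Galois extensions of number fields with semiabelian group, row EX5: the step
-/

set_option autoImplicit false

open scoped BigOperators
open NumberField IsDedekindDomain

namespace Pool.Agent.EX

open Pool.Agent.H98.MF (Om Gm nrm)

section

variable {A : Type} [CommGroup A] {m : ℕ} [NeZero m]

/-- powers with exponents modulo `m` -/
private def sxsPw (y : A) (n : ZMod m) : A := y ^ n.val

omit [NeZero m] in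
private theorem sxsPw_zero (y : A) : sxsPw y (0 : ZMod m) = 1 := by
  unfold sxsPw
  rw [ZMod.val_zero, pow_zero]

omit [NeZero m] in
private theorem sxsPw_one (y : A) (hm : y ^ m = 1) : sxsPw y (1 : ZMod m) = y := by
  unfold sxsPw
  rw [ZMod.val_one_eq_one_mod, ← pow_eq_pow_mod 1 hm, pow_one]

private theorem sxsPw_add (y : A) (hm : y ^ m = 1) (n n' : ZMod m) :
    sxsPw y (n + n') = sxsPw y n * sxsPw y n' := by
  unfold sxsPw
  rw [ZMod.val_add, ← pow_eq_pow_mod _ hm, pow_add]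

end

section

variable {Γ Δ G : Type} [Group Γ] [TopologicalSpace Γ] [Group Δ] [Fintype Δ] [Group G]

/-- the group theoretic part -/
private theorem sxs_grp (A : Subgroup G) (hAn : A.Normal)
    (hA : ∀ a ∈ A, ∀ b ∈ A, a * b = b * a) (m : ℕ) [NeZero m] (hm : ∀ a : A, a ^ m = 1)
    (r : ℕ) (a : Fin r → A) (ha : Function.Surjective a) (res : Γ →* Δ)
    (hs : Function.Surjective res) (ρ : Γ →* G) (hρ : ∀ τ, res τ = 1 → ρ τ = 1)
    (hρl : IsLocallyConstant ρ) (e : Γ → Δ × Fin r → ZMod m) (he : IsLocallyConstant e)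
    (hc : ∀ σ τ : Γ, ∀ x : Δ × Fin r, e (σ * τ) x = e σ x + e τ ((res σ)⁻¹ * x.1, x.2))
    (hx : ∀ ε : Δ × Fin r → ZMod m, ∃ τ, res τ = 1 ∧ e τ = ε)
    (hG : ∀ g : G, ∃ b ∈ A, ∃ σ, g = b * ρ σ) :
    ∃ Φ : Γ →* G, Function.Surjective Φ ∧ IsLocallyConstant Φ := by
  classical
  let : CommGroup A := { (inferInstance : Group A) with
    mul_comm := fun x y => Subtype.ext (hA x x.2 y y.2) }
  choose lift hlift using hs
  -- the map to `G` of the quotient
  have hπ : ∀ g δ, ρ (lift (res g * δ)) = ρ g * ρ (lift δ) := by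
    intro g δ
    have h1 : res (lift (res g * δ) * (g * lift δ)⁻¹) = 1 := by
      rw [map_mul, map_inv, map_mul, hlift, hlift, mul_inv_cancel]
    have h2 := hρ _ h1
    rw [map_mul, map_inv, mul_inv_eq_one, map_mul] at h2
    exact h2
  have hπ1 : ρ (lift 1) = 1 := hρ _ (hlift 1)
  -- the coordinates
  let w : Δ × Fin r → A := fun x => MulAut.conjNormal (ρ (lift x.1)) (a x.2)
  have hw : ∀ g δ i, w (res g * δ, i) = MulAut.conjNormal (ρ g) (w (δ, i)) := by
    intro g δ i
    show MulAut.conjNormal (ρ (lift (res g * δ))) (a i) =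
      MulAut.conjNormal (ρ g) (MulAut.conjNormal (ρ (lift δ)) (a i))
    rw [hπ, map_mul]
    rfl
  let c : Γ → A := fun g => ∏ x, sxsPw (w x) (e g x)
  have hcm : ∀ g g', c (g * g') = c g * MulAut.conjNormal (ρ g) (c g') := by
    intro g g'
    show ∏ x, sxsPw (w x) (e (g * g') x) =
      (∏ x, sxsPw (w x) (e g x)) * MulAut.conjNormal (ρ g) (∏ x, sxsPw (w x) (e g' x))
    have h1 : ∀ x, sxsPw (w x) (e (g * g') x) =
        sxsPw (w x) (e g x) * sxsPw (w x) (e g' ((res g)⁻¹ * x.1, x.2)) := by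
      intro x
      rw [hc, sxsPw_add _ (hm _)]
    rw [Finset.prod_congr rfl fun x _ => h1 x, Finset.prod_mul_distrib]
    congr 1
    rw [map_prod]
    refine (Fintype.prod_equiv ((Equiv.mulLeft (res g)).prodCongr (Equiv.refl (Fin r))) _ _
      fun x => ?_).symm
    obtain ⟨δ, i⟩ := x
    show MulAut.conjNormal (ρ g) (sxsPw (w (δ, i)) (e g' (δ, i))) =
      sxsPw (w (res g * δ, i)) (e g' ((res g)⁻¹ * (res g * δ), i))
    rw [inv_mul_cancel_left, hw]
    exact map_pow (MulAut.conjNormal (ρ g) : MulAut A) (w (δ, i)) _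
  let Φ : Γ →* G := MonoidHom.mk' (fun g => (c g : G) * ρ g) (fun g g' => by
    rw [hcm, map_mul, Subgroup.coe_mul, MulAut.conjNormal_apply]
    group)
  refine ⟨Φ, ?_, ?_⟩
  · have hA1 : ∀ b : A, (b : G) ∈ Φ.range := by
      intro b
      obtain ⟨i, rfl⟩ := ha b
      obtain ⟨τ, h1, h2⟩ := hx (Pi.single (1, i) 1)
      refine ⟨τ, ?_⟩
      show (c τ : G) * ρ τ = a i
      rw [hρ τ h1, mul_one]
      congr 1
      show ∏ x, sxsPw (w x) (e τ x) = a i
      rw [Finset.prod_eq_single (1, i)]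
      · rw [h2, Pi.single_eq_same, sxsPw_one _ (hm _)]
        show MulAut.conjNormal (ρ (lift 1)) (a i) = a i
        rw [hπ1, map_one]
        rfl
      · intro x _ hx
        rw [h2, Pi.single_eq_of_ne hx, sxsPw_zero]
      · intro h
        exact absurd (Finset.mem_univ _) h
    intro g
    obtain ⟨b, hb, σ, rfl⟩ := hG g
    have h1 : b * ρ σ = b * (c σ : G)⁻¹ * Φ σ := by
      show b * ρ σ = b * (c σ : G)⁻¹ * ((c σ : G) * ρ σ)
      group
    rw [← MonoidHom.mem_range, h1]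
    exact Φ.range.mul_mem (Φ.range.mul_mem (hA1 ⟨b, hb⟩) (Φ.range.inv_mem (hA1 (c σ)))) ⟨σ, rfl⟩
  · have h1 : IsLocallyConstant fun g : Γ => (e g, ρ g) := he.prodMk hρl
    exact h1.comp (fun t : (Δ × Fin r → ZMod m) × G =>
      ((∏ x, sxsPw (w x) (t.1 x) : A) : G) * t.2)

end

/-- EX5: the step -/
theorem sxStep (hC : SxCoc) : SxStep := by
  classical
  intro k _ _ G _ _ A H hAn hA hG ⟨ρ, hρs, hρl⟩
  set m : ℕ := Nat.card A with hm
  have hm0 : NeZero m := ⟨Nat.card_pos.ne'⟩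
  have hgal : IsGalois k (Om k) := Pool.Agent.H98.MF.om_galois
  obtain ⟨ζ, hζ⟩ := HasEnoughRootsOfUnity.exists_primitiveRoot (Om k) m
  -- the finite normal extension
  have hU : ((ρ.ker : Set (Gm k)) ∩ {σ | σ ζ = ζ}) ∈ nhds (1 : Gm k) := by
    refine Filter.inter_mem ?_ ?_
    · have h1 : IsOpen (ρ.ker : Set (Gm k)) := by
        have h2 : (ρ.ker : Set (Gm k)) = ρ ⁻¹' {1} := by
          ext σ
          rw [SetLike.mem_coe, MonoidHom.mem_ker]
          rfl
        rw [h2]
        exact hρl {1}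
      exact h1.mem_nhds ρ.ker.one_mem
    · rw [krullTopology_mem_nhds_one_iff]
      refine ⟨IntermediateField.adjoin k {ζ}, ?_, ?_⟩
      · exact IntermediateField.adjoin.finiteDimensional (Algebra.IsIntegral.isIntegral ζ)
      · intro σ hσ
        exact (IntermediateField.mem_fixingSubgroup_iff _ σ).1 hσ ζ
          (IntermediateField.mem_adjoin_simple_self k ζ)
  rw [krullTopology_mem_nhds_one_iff_of_normal] at hU
  obtain ⟨F, hF1, hF2, hF3⟩ := hU
  have hζF : ζ ∈ F := by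
    rw [← InfiniteGalois.fixedField_fixingSubgroup F]
    intro σ
    exact (hF3 σ.2).2
  obtain ⟨e, he, hc, hx⟩ := hC k F m ζ hζ hζF (Nat.card A)
  have hfin : Fintype (F ≃ₐ[k] F) := Fintype.ofFinite _
  refine sxs_grp A hAn hA m (fun a => pow_card_eq_one') (Nat.card A) (Finite.equivFin A).symm
    (Finite.equivFin A).symm.surjective (AlgEquiv.restrictNormalHom F)
    (AlgEquiv.restrictNormalHom_surjective (Om k)) (H.subtype.comp ρ) ?_ ?_ e he hc hx ?_
  · intro τ hτ
    have h1 : τ ∈ F.fixingSubgroup := by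
      rw [← IntermediateField.restrictNormalHom_ker]
      exact hτ
    have h2 : ρ τ = 1 := (hF3 h1).1
    show ((ρ τ : H) : G) = 1
    rw [h2]
    rfl
  · exact hρl.comp (fun h : H => (h : G))
  · intro g
    obtain ⟨a, ha, h, hh, rfl⟩ := hG g
    obtain ⟨σ, hσ⟩ := hρs ⟨h, hh⟩
    refine ⟨a, ha, σ, ?_⟩
    show a * h = a * ((ρ σ : H) : G)
    rw [hσ]

end Pool.Agent.EX
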