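import Pool.Agent.H98.MF.C.Stm

/-!
# Existence of Galois extensions of number fields with semiabelian group: definitions and
statements

A finite group `G` is semiabelian if it is trivial or `G = A H` with `A` an abelian normal
subgroup and `H` a semiabelian subgroup. Every semiabelian group, in particular every group of
class at most two, is a Galois group over every number field.
-/

set_option autoImplicit false

open scoped BigOperators
open NumberField IsDedekindDomain

namespace Pool.Agent.EX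

open Pool.Agent.H98.MF (Om Gm nrm)

/-- semiabelian groups -/
inductive SA : (G : Type) → [Group G] → Prop
  | triv (G : Type) [Group G] : (∀ x : G, x = 1) → SA G
  | step (G : Type) [Group G] (A H : Subgroup G) : A.Normal → (∀ a ∈ A, ∀ b ∈ A, a * b = b * a) →
      (∀ g : G, ∃ a ∈ A, ∃ h ∈ H, g = a * h) → SA H → SA G

/-- continuous surjective homomorphisms exist -/
def Occ (k : Type) [Field k] [NumberField k] (G : Type) [Group G] : Prop :=
  ∃ ρ : Gm k →* G, Function.Surjective ρ ∧ IsLocallyConstant ρ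

/-! ### primes -/

/-- EX1: infinitely many primes of prime norm -/
def SxPr : Prop := ∀ (F : Type) [Field F] [NumberField F],
  {Q : HeightOneSpectrum (𝓞 F) | (nrm Q).Prime}.Infinite

/-- EX2: elements whose conjugates are independent modulo powers -/
def SxInd : Prop := ∀ (F : Type) [Field F] [NumberField F] (I : Type) [Fintype I]
  (s : I → F ≃+* F), Function.Injective s → ∀ m r : ℕ, 1 ≤ m → ∃ b : Fin r → Fˣ,
    ∀ n : I × Fin r → ℤ, (∃ z : F, ∏ x : I × Fin r, (s x.1 (b x.2 : F)) ^ n x = z ^ m) →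
      ∀ x, (m : ℤ) ∣ n x

/-! ### Kummer theory -/

/-- EX3: the Galois group of a Kummer extension -/
def SxKum : Prop := ∀ (k : Type) [Field k] [NumberField k] (F : IntermediateField k (Om k))
  (m : ℕ), 1 ≤ m → ∀ ζ : Om k, IsPrimitiveRoot ζ m → ζ ∈ F → ∀ (J : Type) [Fintype J]
  (b : J → F), (∀ j, b j ≠ 0) →
  (∀ n : J → ℤ, (∃ z : F, ∏ j, b j ^ n j = z ^ m) → ∀ j, (m : ℤ) ∣ n j) →
  ∀ β : J → Om k, (∀ j, β j ^ m = (b j : Om k)) → ∀ ε : J → ℕ,
    ∃ τ : Gm k, (∀ x ∈ F, τ x = x) ∧ ∀ j, τ (β j) = ζ ^ ε j * β j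

/-- EX4: the universal cochain of a finite Galois extension -/
def SxCoc : Prop := ∀ (k : Type) [Field k] [NumberField k] (F : IntermediateField k (Om k))
  [FiniteDimensional k F] [Normal k F] (m : ℕ) [NeZero m] (ζ : Om k), IsPrimitiveRoot ζ m →
  ζ ∈ F → ∀ r : ℕ, ∃ e : Gm k → (F ≃ₐ[k] F) × Fin r → ZMod m,
    IsLocallyConstant e ∧
    (∀ σ τ : Gm k, ∀ x : (F ≃ₐ[k] F) × Fin r, e (σ * τ) x =
      e σ x + e τ ((AlgEquiv.restrictNormalHom F σ)⁻¹ * x.1, x.2)) ∧
    ∀ ε : (F ≃ₐ[k] F) × Fin r → ZMod m, ∃ τ : Gm k, AlgEquiv.restrictNormalHom F τ = 1 ∧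
      e τ = ε

/-! ### groups -/

/-- EX5: the step -/
def SxStep : Prop := ∀ (k : Type) [Field k] [NumberField k] (G : Type) [Group G] [Finite G]
  (A H : Subgroup G), A.Normal → (∀ a ∈ A, ∀ b ∈ A, a * b = b * a) →
  (∀ g : G, ∃ a ∈ A, ∃ h ∈ H, g = a * h) → Occ k H → Occ k G

/-- EX6: groups of class at most two are semiabelian -/
def SxCl : Prop := ∀ (G : Type) [Group G] [Finite G], commutator G ≤ Subgroup.center G → SA G

/-- EX7: semiabelian groups occur -/
def SxOcc : Prop := ∀ (k : Type) [Field k] [NumberField k] (G : Type) [Group G] [Finite G],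
  SA G → Occ k G

/-- EX7: groups of class at most two occur -/
def SxTwo : Prop := ∀ (k : Type) [Field k] [NumberField k] (G : Type) [Group G] [Finite G],
  commutator G ≤ Subgroup.center G → Occ k G

end Pool.Agent.EX
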