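import Pool.Agent.EX.Pr
import Pool.Agent.EX.Ind
import Pool.Agent.EX.Kum
import Pool.Agent.EX.Coc
import Pool.Agent.EX.Step
import Pool.Agent.EX.Cl
import Pool.Agent.EX.Fin

/-!
# Semiabelian groups and groups of class at most two occur over every number field
-/

set_option autoImplicit false

open scoped BigOperators
open NumberField IsDedekindDomain

namespace Pool.Agent.EX

open Pool.Agent.H98.MF (Om Gm nrm)

/-- every finite semiabelian group occurs over every number field -/
theorem exists_surj_semiabelian (k : Type) [Field k] [NumberField k] (G : Type) [Group G]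
    [Finite G] (h : SA G) : ∃ ρ : Gm k →* G, Function.Surjective ρ ∧ IsLocallyConstant ρ :=
  sxOcc (sxStep (sxCoc (sxInd sxPr) sxKum)) k G h

/-- every finite group of class at most two occurs over every number field -/
theorem exists_surj_two (k : Type) [Field k] [NumberField k] (G : Type) [Group G]
    [Finite G] (h : commutator G ≤ Subgroup.center G) :
    ∃ ρ : Gm k →* G, Function.Surjective ρ ∧ IsLocallyConstant ρ :=
  sxTwo (sxStep (sxCoc (sxInd sxPr) sxKum)) sxCl k G h

end Pool.Agent.EX
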